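import Pool.Agent.NH15.UT.U2
import Pool.Agent.H256R2.SC.L
import Pool.Agent.Helper256.KM.Mertens

set_option autoImplicit false

/-! A shift which hits half of the points of a large set is rare. -/

namespace Pool.Agent.NH15.UT

open Finset Filter
open Pool.Agent.W301.SS (pn pn_mono pn_le pn_eq ev_L ev_log)
open Pool.Agent.H646 (rat)
open Pool.Agent.H646.TuplesM (rat_ge_one rat_nonneg tuple_bound)

lemma omega_le' (q : ℕ) (hq : 1 ≤ q) : (q.primeFactors.card : ℝ) ≤ 2 * Real.log q := by
  have h1 : 2 ^ q.primeFactors.card ≤ q := by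
    calc 2 ^ q.primeFactors.card = ∏ _p ∈ q.primeFactors, 2 := by rw [Finset.prod_const]
      _ ≤ ∏ p ∈ q.primeFactors, p := Finset.prod_le_prod' fun p hp =>
          (Nat.prime_of_mem_primeFactors hp).two_le
      _ ≤ q := Nat.le_of_dvd (by omega) (Nat.prod_primeFactors_dvd q)
  have h2 : ((2 : ℝ) ^ q.primeFactors.card) ≤ q := by exact_mod_cast h1
  have h3 := Real.log_le_log (by positivity) h2
  rw [Real.log_pow] at h3
  have := Real.log_two_gt_d9
  have h4 : (0 : ℝ) ≤ q.primeFactors.card := Nat.cast_nonneg _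
  nlinarith

/-- `q / φ(q) ≤ C log log q` -/
theorem rat_le_loglog : ∃ C : ℝ, 0 < C ∧ ∀ q : ℕ, 16 ≤ q → rat q ≤ C * Real.log (Real.log q) := by
  obtain ⟨C, hC⟩ := Pool.Agent.Helper256.KM.mertens_inv
  refine ⟨Real.exp (C + 2) * 4, by positivity, ?_⟩
  intro q hq
  have hq0 : (0 : ℝ) < q := by exact_mod_cast (by omega : 0 < q)
  have hlogq : Real.exp 1 ≤ Real.log q := by
    have h1 : Real.log 16 ≤ Real.log q := Real.log_le_log (by norm_num) (by exact_mod_cast hq)
    have h2 : Real.log 16 = 4 * Real.log 2 := by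
      rw [show (16 : ℝ) = 2 ^ 4 by norm_num, Real.log_pow]; norm_num
    have h3 := Real.log_two_gt_d9
    have h4 := Real.exp_one_lt_d9
    linarith
  have hll : 1 ≤ Real.log (Real.log q) := by
    rw [Real.le_log_iff_exp_le (by linarith [Real.exp_pos 1])]
    exact hlogq
  have he := Real.exp_one_gt_d9
  set y₁ : ℝ := 4 * Real.log q with hy₁
  have hy : 3 ≤ y₁ := by rw [hy₁]; linarith
  have h1 := Pool.Agent.H256R2.SC.LL.bad_prod C hC y₁ hy q.primeFactors (by
    have := omega_le' q (by omega)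
    rw [hy₁]; linarith)
  have h2 : ∏ p ∈ q.primeFactors, (1 - (p : ℝ)⁻¹)⁻¹ ≤
      ∏ p ∈ ((Finset.Icc 1 ⌊y₁⌋₊) ∪ q.primeFactors.filter (fun p : ℕ => y₁ < p)) with p.Prime,
      (1 - (p : ℝ)⁻¹)⁻¹ := by
    apply Finset.prod_le_prod_of_subset_of_one_le
    · intro p hp
      have hpp := Nat.prime_of_mem_primeFactors hp
      rw [Finset.mem_filter, Finset.mem_union, Finset.mem_Icc, Finset.mem_filter]
      refine ⟨?_, hpp⟩
      rcases le_or_gt (p : ℝ) y₁ with h | h
      · left; exact ⟨hpp.one_lt.le, Nat.le_floor h⟩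
      · right; exact ⟨hp, h⟩
    · intro p hp
      exact (Pool.Agent.H256R2.SC.LL.fac_pos p (Nat.prime_of_mem_primeFactors hp)).le
    · intro p hp _
      rw [Finset.mem_filter] at hp
      have h2 : (2 : ℝ) ≤ p := by exact_mod_cast hp.2.two_le
      rw [one_le_inv₀]
      · have : 0 < (p : ℝ)⁻¹ := by positivity
        linarith
      · have : (p : ℝ)⁻¹ < 1 := inv_lt_one_of_one_lt₀ (by linarith)
        linarith
  have h3 : rat q = ∏ p ∈ q.primeFactors, (1 - (p : ℝ)⁻¹)⁻¹ := Pool.Agent.H646.Sv3M.rat_eq (by omega)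
  have h4 : Real.log y₁ ≤ 4 * Real.log (Real.log q) := by
    rw [hy₁, Real.log_mul (by norm_num) (by linarith)]
    have h5 : Real.log 4 ≤ 3 := by
      have := Real.log_le_sub_one_of_pos (show (0 : ℝ) < 4 by norm_num)
      linarith
    linarith
  rw [h3]
  refine (h2.trans h1).trans ?_
  rw [mul_assoc]
  exact mul_le_mul_of_nonneg_left h4 (Real.exp_pos _).le

/-- a uniform bound -/
lemma rat_small (s : ℝ) (hs : 0 < s) : ∀ᶠ N : ℕ in atTop, ∀ q : ℕ, 1 ≤ q → q ≤ 2 * N → rat q ≤ Real.log N ^ s := by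
  obtain ⟨C, hC, h⟩ := rat_le_loglog
  have h1 : ∀ᶠ x : ℝ in atTop, 2 * C * Real.log x + 16 ≤ x ^ s := by
    have h2 : (fun x : ℝ => 2 * C * Real.log x + 16) =o[atTop] fun x : ℝ => x ^ s := by
      apply Asymptotics.IsLittleO.add
      · exact (isLittleO_log_rpow_atTop hs).const_mul_left _
      · exact Asymptotics.isLittleO_const_left.2 (Or.inr (tendsto_norm_atTop_atTop.comp (tendsto_rpow_atTop hs)))
    filter_upwards [h2.bound (c := 1) (by norm_num), eventually_ge_atTop 1] with x h3 h4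
    rw [one_mul] at h3
    have h5 : 0 ≤ x ^ s := by positivity
    rw [Real.norm_of_nonneg h5] at h3
    exact (le_abs_self _).trans h3
  have ht : Tendsto (fun N : ℕ => Real.log N) atTop atTop := Real.tendsto_log_atTop.comp tendsto_natCast_atTop_atTop
  filter_upwards [ht.eventually h1, ev_L 16, eventually_ge_atTop 2] with N h2 hL hN2 q hq1 hq2
  rcases Nat.lt_or_ge q 16 with h3 | h3
  · have h4 : rat q ≤ 16 := by
      unfold rat
      have h5 : (0 : ℝ) < q.totient := by exact_mod_cast Nat.totient_pos.2 (by omega)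
      rw [div_le_iff₀ h5]
      have h6 : (1 : ℝ) ≤ q.totient := by exact_mod_cast Nat.totient_pos.2 (by omega)
      have h7 : (q : ℝ) ≤ 16 := by exact_mod_cast h3.le
      linarith
    have h5 : 0 ≤ 2 * C * Real.log (Real.log N) := by
      have : 0 ≤ Real.log (Real.log N) := Real.log_nonneg (by linarith)
      positivity
    linarith
  · refine (h q h3).trans ?_
    have hq0 : (0 : ℝ) < q := by exact_mod_cast (by omega : 0 < q)
    have hlq : 1 ≤ Real.log q := by
      rw [Real.le_log_iff_exp_le hq0]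
      have := Real.exp_one_lt_d9
      have : (16 : ℝ) ≤ q := by exact_mod_cast h3
      linarith
    have hN0 : (0 : ℝ) < N := by exact_mod_cast (by omega : 0 < N)
    have h4 : Real.log q ≤ 2 * Real.log N := by
      have h5 : (q : ℝ) ≤ (N : ℝ) ^ 2 := by
        have : q ≤ N ^ 2 := by nlinarith
        exact_mod_cast this
      calc Real.log q ≤ Real.log ((N : ℝ) ^ 2) := Real.log_le_log hq0 h5
        _ = _ := by rw [Real.log_pow]; push_cast; ring
    have h5 : Real.log (Real.log q) ≤ 2 * Real.log (Real.log N) := by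
      have h6 : Real.log (Real.log q) ≤ Real.log (Real.log N ^ 2) := by
        apply Real.log_le_log (by linarith)
        nlinarith
      rw [Real.log_pow] at h6
      push_cast at h6
      exact h6
    have := mul_le_mul_of_nonneg_left h5 hC.le
    linarith

/-- the number of the shifts which hit all the points of a separated set -/
lemma hit_all (r : ℕ) (hr : 1 ≤ r) : ∃ C : ℝ, 0 < C ∧ ∀ s : ℝ, 0 < s → ∀ᶠ N : ℕ in atTop, ∀ y : ℕ, y ≤ N →
    ∀ ρ : ℕ, ∀ T : Finset ℕ, T ⊆ Icc 1 N → T.card = r → (∀ n ∈ T, n % (y + 1) = ρ) →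
    (((Icc 1 N).filter (fun b => ∀ n ∈ T, HT y (n + b))).card : ℝ) ≤
      (y : ℝ) ^ r * (C * N / Real.log N ^ r * Real.log N ^ s) := by
  classical
  obtain ⟨C, hC, A, x₀, h⟩ := tuple_bound r hr
  refine ⟨C, hC, fun s hs => ?_⟩
  obtain ⟨s', hs'⟩ : ∃ s' : ℝ, s' = s / ((A * r ^ 2 : ℕ) + 1) := ⟨_, rfl⟩
  have hs'0 : 0 < s' := by rw [hs']; positivity
  have hs'1 : s' * (A * r ^ 2 : ℕ) ≤ s := by
    rw [hs', div_mul_eq_mul_div, div_le_iff₀ (by positivity)]
    nlinarith
  filter_upwards [eventually_ge_atTop x₀, rat_small s' hs'0, ev_L 1] with N hN hrat hL y hy ρ T hT hTc hTρ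
  have hL0 : 0 < Real.log N := by linarith
  obtain ⟨e, he⟩ : ∃ e : Fin r ↪o ℕ, e = T.orderEmbOfFin hTc := ⟨_, rfl⟩
  have heT : ∀ j, e j ∈ T := fun j => by rw [he]; exact orderEmbOfFin_mem _ _ _
  have hsep : ∀ i j : Fin r, i < j → e i + (y + 1) ≤ e j := by
    intro i j hij
    have h1 : e i < e j := e.strictMono hij
    have h2 := hTρ _ (heT i)
    have h3 := hTρ _ (heT j)
    have h4 : (y + 1) ∣ (e j - e i) := (Nat.modEq_iff_dvd' h1.le).1 (h2.trans h3.symm)
    have h5 := Nat.le_of_dvd (by omega) h4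
    omega
  have hsub : (Icc 1 N).filter (fun b => ∀ n ∈ T, HT y (n + b)) ⊆
      (Fintype.piFinset fun _ : Fin r => Ioc 0 y).biUnion fun h =>
        (Icc 1 N).filter (fun b => ∀ j, (b + (e j + h j)).Prime) := by
    intro b hb
    rw [mem_filter] at hb
    obtain ⟨hb1, hb2⟩ := hb
    have h1 : ∀ j : Fin r, ∃ h ∈ Ioc 0 y, (b + (e j + h)).Prime := by
      intro j
      have h2 := hb2 (e j) (heT j)
      unfold HT pn at h2
      rw [card_pos] at h2
      obtain ⟨p, hp⟩ := h2
      rw [mem_filter, mem_Ioc] at hp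
      refine ⟨p - (e j + b), ?_, ?_⟩
      · rw [mem_Ioc]
        omega
      · have : b + (e j + (p - (e j + b))) = p := by omega
        rw [this]
        exact hp.2
    choose hh hh1 hh2 using h1
    rw [mem_biUnion]
    refine ⟨hh, Fintype.mem_piFinset.2 hh1, ?_⟩
    rw [mem_filter]
    exact ⟨hb1, hh2⟩
  have h1 : (((Icc 1 N).filter (fun b => ∀ n ∈ T, HT y (n + b))).card : ℝ) ≤
      ∑ h ∈ (Fintype.piFinset fun _ : Fin r => Ioc 0 y),
        (((Icc 1 N).filter (fun b => ∀ j, (b + (e j + h j)).Prime)).card : ℝ) := by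
    exact_mod_cast (card_le_card hsub).trans card_biUnion_le
  refine h1.trans ?_
  have h2 : ∀ hh ∈ (Fintype.piFinset fun _ : Fin r => Ioc 0 y),
      (((Icc 1 N).filter (fun b => ∀ j, (b + (e j + hh j)).Prime)).card : ℝ) ≤
      C * N / Real.log N ^ r * Real.log N ^ s := by
    intro hh hhm
    rw [Fintype.mem_piFinset] at hhm
    have hh1 : ∀ j, 1 ≤ hh j ∧ hh j ≤ y := fun j => by
      have := mem_Ioc.1 (hhm j)
      omega
    have hmono : StrictMono (fun j => e j + hh j) := by
      intro i j hij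
      have := hsep i j hij
      have := hh1 i
      have := hh1 j
      show e i + hh i < e j + hh j
      omega
    refine (h N hN (fun j => e j + hh j) hmono).trans ?_
    apply mul_le_mul_of_nonneg_left _ (by positivity)
    have h3 : ∀ q ∈ (univ : Finset (Fin r × Fin r)).filter (fun q => q.1 < q.2),
        rat ((e q.2 + hh q.2) - (e q.1 + hh q.1)) ^ A ≤ (Real.log N ^ s') ^ A := by
      intro q hq
      rw [mem_filter] at hq
      have h4 := hsep q.1 q.2 hq.2
      have h5 := hh1 q.1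
      have h6 := hh1 q.2
      have h7 := (mem_Icc.1 (hT (heT q.2))).2
      apply pow_le_pow_left₀ (rat_nonneg _)
      apply hrat <;> omega
    calc ∏ q ∈ (univ : Finset (Fin r × Fin r)).filter (fun q => q.1 < q.2),
          rat ((e q.2 + hh q.2) - (e q.1 + hh q.1)) ^ A ≤
          ∏ _q ∈ (univ : Finset (Fin r × Fin r)).filter (fun q => q.1 < q.2), (Real.log N ^ s') ^ A :=
          prod_le_prod (fun _ _ => pow_nonneg (rat_nonneg _) _) h3
      _ = ((Real.log N ^ s') ^ A) ^ ((univ : Finset (Fin r × Fin r)).filter (fun q => q.1 < q.2)).card := by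
          rw [prod_const]
      _ ≤ ((Real.log N ^ s') ^ A) ^ (r ^ 2) := by
          apply pow_le_pow_right₀
          · exact one_le_pow₀ (Real.one_le_rpow hL hs'0.le)
          · refine (card_filter_le _ _).trans ?_
            rw [card_univ, Fintype.card_prod, Fintype.card_fin]
            nlinarith
      _ = Real.log N ^ (s' * (A * r ^ 2 : ℕ)) := by
          rw [← pow_mul, ← Real.rpow_natCast, ← Real.rpow_mul hL0.le]
      _ ≤ _ := Real.rpow_le_rpow_of_exponent_le hL hs'1
  refine (sum_le_sum h2).trans ?_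
  rw [sum_const, Fintype.card_piFinset, nsmul_eq_mul]
  simp

/-- the number of the shifts which hit a quarter of the points of a class -/
lemma class_bad (r N y ρ : ℕ) (hr : 1 ≤ r) (Q : ℝ) (hQ : 0 ≤ Q)
    (hQ2 : ∀ T : Finset ℕ, T ⊆ Icc 1 N → T.card = r → (∀ n ∈ T, n % (y + 1) = ρ) →
      (((Icc 1 N).filter (fun b => ∀ n ∈ T, HT y (n + b))).card : ℝ) ≤ Q)
    (S : Finset ℕ) (hS : S ⊆ Icc 1 N) (hSρ : ∀ n ∈ S, n % (y + 1) = ρ) (hSc : 8 * r ≤ S.card) :
    (((Icc 1 N).filter (fun b => S.card < 4 * (S.filter (fun n => HT y (n + b))).card)).card : ℝ) ≤ 8 ^ r * Q := by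
  classical
  obtain ⟨Bad, hBad⟩ : ∃ Bad : Finset ℕ, Bad = (Icc 1 N).filter (fun b => S.card < 4 * (S.filter (fun n => HT y (n + b))).card) :=
    ⟨_, rfl⟩
  rw [← hBad]
  have hm : (0 : ℝ) < S.card := by exact_mod_cast (by omega : 0 < S.card)
  -- double counting
  have h1 : ∑ b ∈ Bad, ((powersetCard r (S.filter (fun n => HT y (n + b)))).card : ℝ) ≤
      ((powersetCard r S).card : ℝ) * Q := by
    have e1 : ∀ b ∈ Bad, ((powersetCard r (S.filter (fun n => HT y (n + b)))).card : ℝ) =
        ∑ T ∈ powersetCard r S, if (∀ n ∈ T, HT y (n + b)) then (1 : ℝ) else 0 := by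
      intro b _
      rw [← sum_filter, sum_const, nsmul_eq_mul, mul_one]
      congr 2
      ext T
      rw [mem_filter, mem_powersetCard, mem_powersetCard]
      constructor
      · rintro ⟨g1, g2⟩
        exact ⟨⟨fun n hn => (mem_filter.1 (g1 hn)).1, g2⟩, fun n hn => (mem_filter.1 (g1 hn)).2⟩
      · rintro ⟨⟨g1, g2⟩, g3⟩
        exact ⟨fun n hn => mem_filter.2 ⟨g1 hn, g3 n hn⟩, g2⟩
    rw [sum_congr rfl e1, sum_comm]
    calc ∑ T ∈ powersetCard r S, ∑ b ∈ Bad, (if (∀ n ∈ T, HT y (n + b)) then (1 : ℝ) else 0) ≤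
          ∑ _T ∈ powersetCard r S, Q := by
          apply sum_le_sum
          intro T hT
          rw [mem_powersetCard] at hT
          rw [← sum_filter, sum_const, nsmul_eq_mul, mul_one]
          refine le_trans ?_ (hQ2 T (hT.1.trans hS) hT.2 fun n hn => hSρ n (hT.1 hn))
          apply Nat.cast_le.2
          apply card_le_card
          rw [hBad]
          intro b hb
          rw [mem_filter, mem_filter] at hb
          rw [mem_filter]
          exact ⟨hb.1.1, hb.2⟩
      _ = _ := by rw [sum_const, nsmul_eq_mul]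
  have h2 : ∀ b ∈ Bad, ((S.card : ℝ) / 8) ^ r / r.factorial ≤
      ((powersetCard r (S.filter (fun n => HT y (n + b)))).card : ℝ) := by
    intro b hb
    rw [hBad, mem_filter] at hb
    rw [card_powersetCard]
    refine le_trans ?_ (Nat.pow_le_choose r _)
    apply div_le_div_of_nonneg_right _ (by positivity)
    apply pow_le_pow_left₀ (by positivity)
    have h3 : (S.card : ℝ) < 4 * (S.filter (fun n => HT y (n + b))).card := by exact_mod_cast hb.2
    have h4 : r ≤ (S.filter (fun n => HT y (n + b))).card + 1 := by omega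
    rw [Nat.cast_sub h4]
    push_cast
    have h5 : (8 : ℝ) * r ≤ S.card := by exact_mod_cast hSc
    linarith
  have h3 : (Bad.card : ℝ) * (((S.card : ℝ) / 8) ^ r / r.factorial) ≤ ((S.card : ℝ) ^ r / r.factorial) * Q := by
    calc (Bad.card : ℝ) * (((S.card : ℝ) / 8) ^ r / r.factorial) = ∑ _b ∈ Bad, (((S.card : ℝ) / 8) ^ r / r.factorial) := by
          rw [sum_const, nsmul_eq_mul]
      _ ≤ _ := sum_le_sum h2
      _ ≤ _ := h1
      _ ≤ _ := by
          apply mul_le_mul_of_nonneg_right _ hQ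
          rw [card_powersetCard]
          exact Nat.choose_le_pow_div r _
  have hf : (0 : ℝ) < r.factorial := by exact_mod_cast r.factorial_pos
  have h4 : 0 < ((S.card : ℝ) / 8) ^ r / r.factorial := by positivity
  have h5 : ((S.card : ℝ) ^ r / r.factorial) * Q = (8 ^ r * Q) * (((S.card : ℝ) / 8) ^ r / r.factorial) := by
    rw [div_pow]
    field_simp
  rw [h5] at h3
  exact le_of_mul_le_mul_right h3 h4

/-- the number of the shifts which hit half of the points of a large set -/
lemma bad_small (δ : ℝ) (hδ : 0 < δ) (D : ℕ) : ∀ᶠ N : ℕ in atTop, ∀ y : ℕ, (y : ℝ) ≤ Real.log N ^ (1 - δ) →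
    ∀ S : Finset ℕ, S ⊆ Icc 1 N → Real.sqrt N ≤ S.card →
      (((Icc 1 N).filter (fun b => S.card < 2 * (S.filter (fun n => HT y (n + b))).card)).card : ℝ) ≤
        1 / Real.log N ^ D * N := by
  classical
  obtain ⟨r, hr⟩ : ∃ r : ℕ, ((D : ℝ) + 3) / δ ≤ r := exists_nat_ge _
  rw [div_le_iff₀ hδ] at hr
  have hr1 : 1 ≤ r := by
    by_contra h
    have : r = 0 := by omega
    rw [this] at hr
    simp at hr
    have : (0 : ℝ) ≤ D := Nat.cast_nonneg D
    linarith
  obtain ⟨C, hC, h⟩ := hit_all r hr1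
  filter_upwards [h 1 (by norm_num), ev_L (2 * (8 ^ r * C) + 16), ev_log 2 (64 * (r + 1)) (1 / 2) (by norm_num),
    eventually_ge_atTop 16] with N h1 hL hlog hN16 y hy S hS hSc
  have hNr : (16 : ℝ) ≤ N := by exact_mod_cast hN16
  have hN0 : (0 : ℝ) < N := by linarith
  obtain ⟨L, hLd⟩ : ∃ L, L = Real.log (N : ℝ) := ⟨_, rfl⟩
  rw [← hLd] at hL hy hlog h1 ⊢
  have h8 : 0 < 8 ^ r * C := by positivity
  have hL0 : 0 < L := by linarith
  have hL1 : 1 ≤ L := by linarith
  have hyL : (y : ℝ) ≤ L := by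
    refine hy.trans ?_
    calc L ^ (1 - δ) ≤ L ^ (1 : ℝ) := Real.rpow_le_rpow_of_exponent_le hL1 (by linarith)
      _ = L := Real.rpow_one L
  have hLN : L ≤ N := by
    rw [hLd]
    exact (Real.log_le_sub_one_of_pos hN0).trans (by linarith)
  have hyN : y ≤ N := by exact_mod_cast hyL.trans hLN
  have hy1 : ((y + 1 : ℕ) : ℝ) ≤ 2 * L := by push_cast; linarith
  -- the classes
  obtain ⟨Sρ, hSρ⟩ : ∃ Sρ : ℕ → Finset ℕ, Sρ = fun ρ => S.filter (fun n => n % (y + 1) = ρ) := ⟨_, rfl⟩
  obtain ⟨Q, hQ⟩ : ∃ Q : ℝ, Q = (y : ℝ) ^ r * (C * N / L ^ r * L ^ (1 : ℝ)) := ⟨_, rfl⟩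
  have hQ0 : 0 ≤ Q := by rw [hQ]; positivity
  have hpart : ∀ P : ℕ → Prop, [DecidablePred P] → (S.filter P).card = ∑ ρ ∈ range (y + 1), ((Sρ ρ).filter P).card := by
    intro P _
    rw [card_eq_sum_card_fiberwise (f := fun n => n % (y + 1)) (t := range (y + 1))]
    · apply sum_congr rfl
      intro ρ _
      rw [hSρ]
      simp only
      rw [filter_filter, filter_filter]
      congr 1
      apply filter_congr
      intro n _
      exact and_comm
    · intro n _
      exact mem_range.2 (Nat.mod_lt _ (by omega))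
  have hcl : ∀ ρ ∈ range (y + 1), S.card < 4 * ((y + 1) * (Sρ ρ).card) →
      (((Icc 1 N).filter (fun b => (Sρ ρ).card < 4 * ((Sρ ρ).filter (fun n => HT y (n + b))).card)).card : ℝ) ≤ 8 ^ r * Q := by
    intro ρ _ hρ
    apply class_bad r N y ρ hr1 Q hQ0
    · intro T hT hTc hTρ
      rw [hQ]
      exact h1 y hyN ρ T hT hTc hTρ
    · rw [hSρ]
      exact (filter_subset _ _).trans hS
    · intro n hn
      rw [hSρ, mem_filter] at hn
      exact hn.2
    · -- the class is large
      have h2 : (S.card : ℝ) < 4 * ((y + 1 : ℕ) * (Sρ ρ).card) := by exact_mod_cast hρ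
      have h3 : 64 * (r + 1) * L ^ 2 ≤ Real.sqrt N := by
        rw [Real.sqrt_eq_rpow]
        exact hlog
      have h4 : (8 * r : ℝ) * (8 * L) ≤ (Sρ ρ).card * (8 * L) := by
        have h5 : 4 * (((y + 1 : ℕ) : ℝ) * (Sρ ρ).card) ≤ 4 * (2 * L * (Sρ ρ).card) :=
          mul_le_mul_of_nonneg_left (mul_le_mul_of_nonneg_right hy1 (Nat.cast_nonneg _)) (by norm_num)
        have h6 : (64 : ℝ) * r * L ≤ 64 * (r + 1) * L ^ 2 := by
          have : (0 : ℝ) ≤ r := Nat.cast_nonneg r
          nlinarith [mul_nonneg this hL0.le, mul_nonneg this (sq_nonneg L)]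
        linarith
      have h5 : (8 * r : ℝ) ≤ (Sρ ρ).card := le_of_mul_le_mul_right h4 (by positivity)
      exact_mod_cast h5
  have hsub : (Icc 1 N).filter (fun b => S.card < 2 * (S.filter (fun n => HT y (n + b))).card) ⊆
      (range (y + 1)).biUnion fun ρ => if S.card < 4 * ((y + 1) * (Sρ ρ).card) then
        (Icc 1 N).filter (fun b => (Sρ ρ).card < 4 * ((Sρ ρ).filter (fun n => HT y (n + b))).card) else ∅ := by
    intro b hb
    rw [mem_filter] at hb
    rw [mem_biUnion]
    by_contra hcon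
    push Not at hcon
    have h2 : ∀ ρ ∈ range (y + 1), 4 * (y + 1) * ((Sρ ρ).filter (fun n => HT y (n + b))).card ≤
        (y + 1) * (Sρ ρ).card + S.card := by
      intro ρ hρ
      have h3 := hcon ρ hρ
      by_cases h4 : S.card < 4 * ((y + 1) * (Sρ ρ).card)
      · rw [if_pos h4, mem_filter, not_and, not_lt] at h3
        have h5 := h3 hb.1
        nlinarith
      · rw [not_lt] at h4
        have h5 : ((Sρ ρ).filter (fun n => HT y (n + b))).card ≤ (Sρ ρ).card := card_filter_le _ _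
        nlinarith
    have h3 := sum_le_sum h2
    rw [← mul_sum, ← hpart, sum_add_distrib, ← mul_sum, sum_const, card_range, smul_eq_mul] at h3
    have h4 : ∑ ρ ∈ range (y + 1), (Sρ ρ).card = S.card := by
      have := hpart (fun _ => True)
      simp only [filter_true] at this
      exact this.symm
    rw [h4] at h3
    have h5 : 4 * (y + 1) * (S.filter (fun n => HT y (n + b))).card ≤ 2 * (y + 1) * S.card := by linarith
    have h6 : 2 * (S.filter (fun n => HT y (n + b))).card ≤ S.card := by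
      by_contra h7
      rw [not_le] at h7
      nlinarith
    omega
  have h2 : (((Icc 1 N).filter (fun b => S.card < 2 * (S.filter (fun n => HT y (n + b))).card)).card : ℝ) ≤
      ((y + 1 : ℕ) : ℝ) * (8 ^ r * Q) := by
    calc _ ≤ ∑ ρ ∈ range (y + 1), ((if S.card < 4 * ((y + 1) * (Sρ ρ).card) then
        (Icc 1 N).filter (fun b => (Sρ ρ).card < 4 * ((Sρ ρ).filter (fun n => HT y (n + b))).card) else ∅).card : ℝ) := by
          exact_mod_cast (card_le_card hsub).trans card_biUnion_le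
      _ ≤ ∑ _ρ ∈ range (y + 1), 8 ^ r * Q := by
          apply sum_le_sum
          intro ρ hρ
          split_ifs with h3
          · exact hcl ρ hρ h3
          · rw [card_empty, Nat.cast_zero]
            positivity
      _ = _ := by rw [sum_const, card_range, nsmul_eq_mul]
  refine h2.trans ?_
  -- the exponents
  have h3 : (y : ℝ) ^ r ≤ L ^ ((1 - δ) * r) := by
    calc (y : ℝ) ^ r ≤ (L ^ (1 - δ)) ^ r := pow_le_pow_left₀ (Nat.cast_nonneg _) hy r
      _ = _ := by rw [← Real.rpow_natCast, ← Real.rpow_mul hL0.le]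
  have h4 : Q ≤ L ^ ((1 - δ) * r) * (C * N / L ^ r * L ^ (1 : ℝ)) := by
    rw [hQ]
    exact mul_le_mul_of_nonneg_right h3 (by positivity)
  have h5 : L ^ ((1 - δ) * r) * (C * N / L ^ r * L ^ (1 : ℝ)) = C * N * L ^ (1 - δ * r) := by
    rw [show (1 - δ * (r : ℝ)) = (1 - δ) * r + 1 - r by ring, Real.rpow_sub hL0, Real.rpow_add hL0,
      Real.rpow_natCast]
    field_simp
  have h6 : L ^ (1 - δ * r) ≤ L ^ (-(2 : ℝ) - D) := by
    apply Real.rpow_le_rpow_of_exponent_le hL1
    linarith
  have h7 : L ^ (-(2 : ℝ) - D) = 1 / (L ^ 2 * L ^ D) := by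
    rw [Real.rpow_sub hL0, Real.rpow_neg hL0.le, Real.rpow_natCast, Real.rpow_two]
    field_simp
  have h9 : Q ≤ C * N * (1 / (L ^ 2 * L ^ D)) := by
    rw [← h7]
    rw [h5] at h4
    exact h4.trans (mul_le_mul_of_nonneg_left h6 (by positivity))
  calc ((y + 1 : ℕ) : ℝ) * (8 ^ r * Q) ≤ (2 * L) * (8 ^ r * (C * N * (1 / (L ^ 2 * L ^ D)))) := by
        apply mul_le_mul hy1 _ (by positivity) (by positivity)
        exact mul_le_mul_of_nonneg_left h9 (by positivity)
    _ = (2 * (8 ^ r * C) / L) * (1 / L ^ D * N) := by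
        field_simp
    _ ≤ 1 * (1 / L ^ D * N) := by
        apply mul_le_mul_of_nonneg_right _ (by positivity)
        rw [div_le_one hL0]
        linarith
    _ = _ := one_mul _

end Pool.Agent.NH15.UT
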