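import Pool.Agent.NH15.UT.U3

set_option autoImplicit false

/-! Almost all tuples of shifts: the maximal gap of the union of the translates of the primes. -/

namespace Pool.Agent.NH15.UT

open Finset Filter
open Pool.Agent.W301.SS (pn pn_mono pn_le pn_eq ev_L ev_log)

/-- many hits everywhere -/
lemma part1 : ∃ c : ℝ, 0 < c ∧ ∃ C : ℝ, 1 ≤ C ∧ ∀ᶠ N : ℕ in atTop, ∀ k : ℕ, C * Real.log N ≤ k →
    numT N k (fun b => ¬ ∀ n y : ℕ, n ≤ N → C * Real.log N ^ 2 ≤ k * y →
      c * k * min 1 (y / Real.log N) ≤ hits b y n) ≤ (N : ℝ) ^ k * (1 / N) := by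
  classical
  obtain ⟨c0, hc0, h0⟩ := hit_lower
  have hC1 : 1 ≤ 16 / c0 + 1 := by
    have : 0 < 16 / c0 := by positivity
    linarith
  refine ⟨c0 / 4, by positivity, 16 / c0 + 1, hC1, ?_⟩
  filter_upwards [h0, ev_L 16, eventually_ge_atTop 16] with N h1 hL hN16 k hk
  have hNr : (16 : ℝ) ≤ N := by exact_mod_cast hN16
  have hN0 : (0 : ℝ) < N := by linarith
  obtain ⟨L, hLd⟩ : ∃ L, L = Real.log (N : ℝ) := ⟨_, rfl⟩
  rw [← hLd] at hL hk h1 ⊢
  have hL0 : 0 < L := by linarith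
  have hLN : L ≤ N - 1 := by
    rw [hLd]
    exact Real.log_le_sub_one_of_pos hN0
  obtain ⟨Y, hY⟩ : ∃ Y : ℕ, Y = ⌈L⌉₊ := ⟨_, rfl⟩
  have hY1 : L ≤ Y := by rw [hY]; exact Nat.le_ceil _
  have hY2 : (Y : ℝ) ≤ L + 1 := by rw [hY]; exact (Nat.ceil_lt_add_one hL0.le).le
  have hYN : Y ≤ N := by
    have : (Y : ℝ) ≤ N := by linarith
    exact_mod_cast this
  have hk0 : (0 : ℝ) ≤ k := Nat.cast_nonneg k
  have hc16 : 0 < 16 / c0 := by positivity
  -- the size of the expectation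
  have hbig : ∀ y : ℕ, (16 / c0 + 1) * L ^ 2 ≤ k * y → 4 * L ≤ k * (c0 * min 1 (y / L)) / 4 := by
    intro y hy
    have h2 : 16 / c0 * L ≤ k * min 1 (y / L) := by
      rcases le_total (1 : ℝ) (y / L) with h | h
      · rw [min_eq_left h, mul_one]
        linarith
      · rw [min_eq_right h, ← mul_div_assoc, le_div_iff₀ hL0]
        nlinarith
    have h3 := mul_le_mul_of_nonneg_left h2 hc0.le
    have h4 : c0 * (16 / c0 * L) = 16 * L := by field_simp
    rw [h4] at h3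
    linarith
  have hmain : numT N k (fun b => ∃ n ∈ range (N + 1), ∃ y ∈ range (Y + 1), (16 / c0 + 1) * L ^ 2 ≤ k * y ∧
      (hits b y n : ℝ) ≤ k * (c0 * min 1 (y / L)) / 4) ≤ (N : ℝ) ^ k * (1 / N) := by
    refine (numT_ex (range (N + 1)) N k (fun n b => ∃ y ∈ range (Y + 1), (16 / c0 + 1) * L ^ 2 ≤ k * y ∧
      (hits b y n : ℝ) ≤ k * (c0 * min 1 (y / L)) / 4)).trans ?_
    have h2 : ∀ n ∈ range (N + 1), numT N k (fun b => ∃ y ∈ range (Y + 1), (16 / c0 + 1) * L ^ 2 ≤ k * y ∧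
      (hits b y n : ℝ) ≤ k * (c0 * min 1 (y / L)) / 4) ≤ ∑ _y ∈ range (Y + 1), (N : ℝ) ^ k * (1 / (N : ℝ) ^ 4) := by
      intro n hn
      refine (numT_ex (range (Y + 1)) N k (fun y b => (16 / c0 + 1) * L ^ 2 ≤ k * y ∧
        (hits b y n : ℝ) ≤ k * (c0 * min 1 (y / L)) / 4)).trans (sum_le_sum fun y hy => ?_)
      by_cases h3 : (16 / c0 + 1) * L ^ 2 ≤ (k : ℝ) * y
      · refine (numT_mono N k (F := fun b => (hits b y n : ℝ) ≤ k * (c0 * min 1 (y / L)) / 4) (fun b hb => hb.2)).trans ?_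
        have h4 := few_hits N k n y (c0 * min 1 (y / L)) (by positivity) (by
          rw [mem_range] at hn hy
          have := h1 n y (by omega) (by omega)
          linarith)
        refine h4.trans ?_
        apply mul_le_mul_of_nonneg_left _ (by positivity)
        have h5 := hbig y h3
        have h6 : 1 / (N : ℝ) ^ 4 = Real.exp (-(4 * L)) := by
          rw [Real.exp_neg, hLd, show (4 : ℝ) * Real.log N = (4 : ℕ) * Real.log N by norm_num, Real.exp_nat_mul,
            Real.exp_log hN0, one_div]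
        rw [h6]
        apply Real.exp_le_exp.2
        linarith
      · rw [numT_zero]
        · positivity
        · rintro b ⟨h4, -⟩
          exact h3 h4
    refine (sum_le_sum h2).trans ?_
    rw [sum_const, sum_const, card_range, card_range, nsmul_eq_mul, nsmul_eq_mul]
    have h3 : ((N + 1 : ℕ) : ℝ) ≤ 2 * N := by push_cast; linarith
    have h4 : ((Y + 1 : ℕ) : ℝ) ≤ 2 * N := by push_cast; linarith
    calc ((N + 1 : ℕ) : ℝ) * (((Y + 1 : ℕ) : ℝ) * ((N : ℝ) ^ k * (1 / (N : ℝ) ^ 4))) ≤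
          (2 * N) * ((2 * N) * ((N : ℝ) ^ k * (1 / (N : ℝ) ^ 4))) := by
          apply mul_le_mul h3 _ (by positivity) (by positivity)
          exact mul_le_mul_of_nonneg_right h4 (by positivity)
      _ = (4 / N) * ((N : ℝ) ^ k * (1 / N)) := by
          field_simp
          ring
      _ ≤ 1 * ((N : ℝ) ^ k * (1 / N)) := by
          apply mul_le_mul_of_nonneg_right _ (by positivity)
          rw [div_le_one hN0]
          linarith
      _ = _ := one_mul _
  refine le_trans (numT_mono N k ?_) hmain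
  intro b hb
  push Not at hb
  obtain ⟨n, y, hn, hy, hlt⟩ := hb
  rcases le_or_gt y Y with h2 | h2
  · refine ⟨n, mem_range.2 (by omega), y, mem_range.2 (by omega), hy, ?_⟩
    linarith
  · refine ⟨n, mem_range.2 (by omega), Y, mem_range.2 (by omega), ?_, ?_⟩
    · have : (k : ℝ) * L ≤ k * Y := mul_le_mul_of_nonneg_left hY1 hk0
      nlinarith
    · have h3 : (hits b Y n : ℝ) ≤ hits b y n := by exact_mod_cast hits_mono b n h2.le
      have h4 : min 1 ((Y : ℝ) / L) = 1 := min_eq_left (by rw [le_div_iff₀ hL0]; linarith)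
      have h5 : min 1 ((y : ℝ) / L) ≤ 1 := min_le_left _ _
      rw [h4]
      have h6 : c0 / 4 * k * min 1 (y / L) ≤ c0 / 4 * k * 1 := mul_le_mul_of_nonneg_left h5 (by positivity)
      linarith

lemma HT_zero (m : ℕ) : ¬ HT 0 m := by
  unfold HT
  have := pn_le m 0
  omega

lemma hits_zero {k : ℕ} (b : Fin k → ℕ) (y n : ℕ) : hits b y n = 0 ↔ ∀ i, ¬ HT y (n + b i) := by
  unfold hits
  rw [card_eq_zero, filter_eq_empty_iff]
  simp

/-- points without hits -/
lemma part2 : ∃ c : ℝ, 0 < c ∧ c ≤ 1 ∧ ∀ δ : ℝ, 0 < δ → ∀ A : ℕ, ∀ᶠ N : ℕ in atTop, ∀ k : ℕ, 1 ≤ k →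
    numT N k (fun b => ¬ ∀ y : ℕ, (k : ℝ) * y ≤ c * Real.log N ^ 2 → (y : ℝ) ≤ Real.log N ^ (1 - δ) →
      Real.sqrt N ≤ (((Icc 1 N).filter (fun n => hits b y n = 0)).card : ℝ)) ≤
      (N : ℝ) ^ k * (1 / (N : ℝ) ^ (1 / 4 : ℝ) + 1 / Real.log N ^ A) := by
  classical
  obtain ⟨C1, hC1, h1⟩ := first_upper
  refine ⟨1 / (8 * C1), by positivity, by rw [div_le_one (by positivity)]; linarith, ?_⟩
  intro δ hδ A
  filter_upwards [h1, bad_small δ hδ (A + 2), ev_L 16, eventually_ge_atTop 16] with N h1 h2 hL hN16 k hk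
  have hNr : (16 : ℝ) ≤ N := by exact_mod_cast hN16
  have hN0 : (0 : ℝ) < N := by linarith
  obtain ⟨L, hLd⟩ : ∃ L, L = Real.log (N : ℝ) := ⟨_, rfl⟩
  rw [← hLd] at hL h1 h2 ⊢
  have hL0 : 0 < L := by linarith
  have hk0 : (0 : ℝ) < k := by exact_mod_cast hk
  obtain ⟨y, hy⟩ : ∃ y : ℕ, y = ⌊min (1 / (8 * C1) * L ^ 2 / k) (L ^ (1 - δ))⌋₊ := ⟨_, rfl⟩
  have hy0 : (y : ℝ) ≤ min (1 / (8 * C1) * L ^ 2 / k) (L ^ (1 - δ)) := by
    rw [hy]
    apply Nat.floor_le
    positivity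
  have hy1 : (k : ℝ) * y ≤ 1 / (8 * C1) * L ^ 2 := by
    have := hy0.trans (min_le_left _ _)
    rw [le_div_iff₀ hk0] at this
    linarith
  have hy2 : (y : ℝ) ≤ L ^ (1 - δ) := hy0.trans (min_le_right _ _)
  -- monotonicity
  have hmono : ∀ b : Fin k → ℕ, (¬ ∀ y : ℕ, (k : ℝ) * y ≤ 1 / (8 * C1) * L ^ 2 → (y : ℝ) ≤ L ^ (1 - δ) →
      Real.sqrt N ≤ (((Icc 1 N).filter (fun n => hits b y n = 0)).card : ℝ)) →
      ((surv y (Icc 1 N) b).card : ℝ) < Real.sqrt N := by
    intro b hb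
    push Not at hb
    obtain ⟨z, hz1, hz2, hz3⟩ := hb
    refine lt_of_le_of_lt ?_ hz3
    apply Nat.cast_le.2
    apply card_le_card
    have hzy : z ≤ y := by
      rw [hy]
      apply Nat.le_floor
      apply le_min
      · rw [le_div_iff₀ hk0]
        linarith
      · exact hz2
    intro n hn
    unfold surv at hn
    rw [mem_filter] at hn ⊢
    refine ⟨hn.1, ?_⟩
    have h3 : hits b y n = 0 := (hits_zero b y n).2 hn.2
    have := hits_mono b n hzy
    omega
  refine (numT_mono N k hmono).trans ?_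
  rcases Nat.eq_zero_or_pos y with hy3 | hy3
  · rw [numT_zero]
    · positivity
    · intro b hb
      have : surv y (Icc 1 N) b = Icc 1 N := by
        unfold surv
        rw [filter_eq_self]
        intro n _ i
        rw [hy3]
        exact HT_zero _
      rw [this, Nat.card_Icc, Nat.add_sub_cancel] at hb
      have h3 : Real.sqrt N ≤ N := by
        rw [Real.sqrt_le_left hN0.le]
        nlinarith
      linarith
  have hy3r : (1 : ℝ) ≤ y := by exact_mod_cast hy3
  have hkL : (k : ℝ) ≤ L ^ 2 := by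
    have h3 : (k : ℝ) ≤ k * y := by nlinarith
    have h4 : 1 / (8 * C1) * L ^ 2 ≤ 1 * L ^ 2 := by
      apply mul_le_mul_of_nonneg_right _ (by positivity)
      rw [div_le_one (by positivity)]
      linarith
    linarith
  have key := chainS N y (Real.sqrt N) (2 * C1 * (y / L)) (1 / L ^ (A + 2)) (Real.sqrt_pos.2 hN0) (by positivity)
    (by positivity) (fun S hS hSc => h2 y hy2 S hS hSc) (by
      intro S hS
      calc ∑ b ∈ Icc 1 N, ((S.filter (fun n => HT y (n + b))).card : ℝ) =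
            ∑ n ∈ S, ∑ b ∈ Icc 1 N, (if HT y (n + b) then (1 : ℝ) else 0) := by
            rw [sum_comm]
            apply sum_congr rfl
            intro b _
            rw [← sum_filter, sum_const, nsmul_eq_mul, mul_one]
        _ ≤ ∑ n ∈ S, ∑ b ∈ Icc 1 N, (pn (n + b) y : ℝ) := by
            apply sum_le_sum
            intro n _
            apply sum_le_sum
            intro b _
            split_ifs with h
            · unfold HT at h
              exact_mod_cast h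
            · exact Nat.cast_nonneg _
        _ ≤ ∑ _n ∈ S, C1 * N * (y / L) := sum_le_sum fun n _ => h1 n y
        _ = 2 * C1 * (y / L) / 2 * N * S.card := by
            rw [sum_const, nsmul_eq_mul]
            ring) k (Icc 1 N) (Subset.refl _) ⟨1, mem_Icc.2 ⟨le_rfl, by omega⟩⟩
  refine key.trans ?_
  apply mul_le_mul_of_nonneg_left _ (by positivity)
  apply add_le_add
  · rw [Nat.card_Icc, Nat.add_sub_cancel]
    have h3 : (1 + 2 * C1 * (y / L)) ^ k ≤ (N : ℝ) ^ (1 / 4 : ℝ) := by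
      calc (1 + 2 * C1 * (y / L)) ^ k ≤ (Real.exp (2 * C1 * (y / L))) ^ k := by
            apply pow_le_pow_left₀ (by positivity)
            have := Real.add_one_le_exp (2 * C1 * (y / L))
            linarith
        _ = Real.exp (k * (2 * C1 * (y / L))) := by rw [← Real.exp_nat_mul]
        _ ≤ Real.exp (L * (1 / 4)) := by
            apply Real.exp_le_exp.2
            have h4 : (k : ℝ) * (2 * C1 * (y / L)) = 2 * C1 * (k * y) / L := by ring
            rw [h4, div_le_iff₀ hL0]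
            calc 2 * C1 * (k * y) ≤ 2 * C1 * (1 / (8 * C1) * L ^ 2) := mul_le_mul_of_nonneg_left hy1 (by positivity)
              _ = _ := by field_simp; ring
        _ = _ := by
            rw [hLd, ← Real.rpow_def_of_pos hN0]
    have h5 : Real.sqrt N / N = 1 / (N : ℝ) ^ (1 / 2 : ℝ) := by
      rw [Real.sqrt_eq_rpow, div_eq_div_iff hN0.ne' (by positivity), one_mul, ← Real.rpow_add hN0]
      norm_num
    calc Real.sqrt N / N * (1 + 2 * C1 * (y / L)) ^ k ≤ Real.sqrt N / N * (N : ℝ) ^ (1 / 4 : ℝ) :=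
          mul_le_mul_of_nonneg_left h3 (by positivity)
      _ = 1 / (N : ℝ) ^ (1 / 4 : ℝ) := by
          rw [h5, one_div_mul_eq_div, div_eq_div_iff (by positivity) (by positivity), one_mul, ← Real.rpow_add hN0]
          norm_num
  · calc (k : ℝ) * (1 / L ^ (A + 2)) ≤ L ^ 2 * (1 / L ^ (A + 2)) := mul_le_mul_of_nonneg_right hkL (by positivity)
      _ = _ := by
          rw [pow_add]
          field_simp

theorem final : ∃ c C : ℝ, 0 < c ∧ 0 < C ∧ ∀ δ : ℝ, 0 < δ → ∀ A : ℕ, ∀ᶠ N : ℕ in atTop, ∀ k : ℕ,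
    C * Real.log N ≤ k →
    numT N k (fun b => ¬ ((∀ n y : ℕ, n ≤ N → C * Real.log N ^ 2 ≤ k * y →
        c * k * min 1 (y / Real.log N) ≤ hits b y n) ∧
      (∀ y : ℕ, (k : ℝ) * y ≤ c * Real.log N ^ 2 → (y : ℝ) ≤ Real.log N ^ (1 - δ) →
        Real.sqrt N ≤ (((Icc 1 N).filter (fun n => hits b y n = 0)).card : ℝ)))) ≤ (N : ℝ) ^ k / Real.log N ^ A := by
  obtain ⟨c1, hc1, C, hC, h1⟩ := part1
  obtain ⟨c2, hc2, hc21, h2⟩ := part2
  refine ⟨min c1 c2, C, lt_min hc1 hc2, by linarith, fun δ hδ A => ?_⟩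
  filter_upwards [h1, h2 δ hδ (A + 1), ev_L 16, ev_log A 4 (1 / 4) (by norm_num), eventually_ge_atTop 16] with
    N h1 h2 hL hlog hN16 k hk
  have hNr : (16 : ℝ) ≤ N := by exact_mod_cast hN16
  have hN0 : (0 : ℝ) < N := by linarith
  have hk1 : 1 ≤ k := by
    have : (0 : ℝ) < k := by nlinarith
    exact_mod_cast this
  have h3 := h1 k hk
  have h4 := h2 k hk1
  obtain ⟨L, hLd⟩ : ∃ L, L = Real.log (N : ℝ) := ⟨_, rfl⟩
  rw [← hLd] at hL hk h3 h4 hlog ⊢
  have hL0 : 0 < L := by linarith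
  have h5 := numT_or N k (fun b => ¬ ∀ n y : ℕ, n ≤ N → C * L ^ 2 ≤ k * y → c1 * k * min 1 (y / L) ≤ hits b y n)
    (fun b => ¬ ∀ y : ℕ, (k : ℝ) * y ≤ c2 * L ^ 2 → (y : ℝ) ≤ L ^ (1 - δ) →
      Real.sqrt N ≤ (((Icc 1 N).filter (fun n => hits b y n = 0)).card : ℝ))
  refine le_trans (numT_mono N k ?_) (h5.trans ((add_le_add h3 h4).trans ?_))
  · intro b hb
    by_contra hcon
    rw [not_or, not_not, not_not] at hcon
    apply hb
    obtain ⟨g1, g2⟩ := hcon
    refine ⟨fun n y hn hy => ?_, fun y hy1 hy2 => g2 y ?_ hy2⟩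
    · refine le_trans ?_ (g1 n y hn hy)
      apply mul_le_mul_of_nonneg_right _ (by positivity)
      exact mul_le_mul_of_nonneg_right (min_le_left _ _) (Nat.cast_nonneg _)
    · refine hy1.trans ?_
      exact mul_le_mul_of_nonneg_right (min_le_right _ _) (by positivity)
  · rw [← mul_add, show (N : ℝ) ^ k / L ^ A = (N : ℝ) ^ k * (L ^ A)⁻¹ from div_eq_mul_inv _ _]
    apply mul_le_mul_of_nonneg_left _ (by positivity)
    have hLA : 0 < L ^ A := by positivity
    have hN14 : 0 < (N : ℝ) ^ (1 / 4 : ℝ) := by positivity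
    have e1 : 1 / (N : ℝ) ^ (1 / 4 : ℝ) ≤ (L ^ A)⁻¹ / 4 := by
      rw [← one_div, div_div, div_le_div_iff₀ hN14 (by positivity)]
      linarith
    have e2 : 1 / (N : ℝ) ≤ 1 / (N : ℝ) ^ (1 / 4 : ℝ) := by
      apply one_div_le_one_div_of_le hN14
      calc (N : ℝ) ^ (1 / 4 : ℝ) ≤ (N : ℝ) ^ (1 : ℝ) :=
            Real.rpow_le_rpow_of_exponent_le (by linarith) (by norm_num)
        _ = N := Real.rpow_one _
    have e3 : 1 / L ^ (A + 1) ≤ (L ^ A)⁻¹ / 4 := by
      rw [← one_div, div_div, pow_succ]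
      apply one_div_le_one_div_of_le (by positivity)
      exact mul_le_mul_of_nonneg_left (by linarith) hLA.le
    have e4 : 0 < (L ^ A)⁻¹ := by positivity
    linarith

end Pool.Agent.NH15.UT
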