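import Pool.Agent.H373R2.BH.Pair
import Pool.Agent.H646.Moment
import Pool.Agent.W301.SS.Asym
import Pool.Agent.W301.SS.Count

set_option autoImplicit false

/-! The numbers of the primes in the intervals `(n + b, n + b + y]` on the average over `b`. -/

namespace Pool.Agent.NH15.UT

open Finset Filter
open Pool.Agent.W301.SS (pn pn_mono pn_le pn_eq ev_L ev_log)
open Pool.Agent.H646 (rat)
open Pool.Agent.H646.TuplesM (rat_ge_one rat_nonneg tuple_bound)
open Pool.Agent.H373R2.BH (pair_window single_window)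

/-- primes in long intervals -/
lemma prime_lower : ∀ᶠ N : ℕ in atTop, ∀ j : ℕ, j ≤ 2 * N →
    (N : ℝ) / (2 * Real.log N) ≤ (((Icc 1 N).filter (fun b => (b + j).Prime)).card : ℝ) := by
  filter_upwards [Pool.Agent.W301.SS.pnt_unif 1, ev_L 16, eventually_ge_atTop 16] with N h1 hL hN16 j hj
  have hNr : (16 : ℝ) ≤ N := by exact_mod_cast hN16
  have hN0 : (0 : ℝ) < N := by linarith
  have a1 := abs_le.1 (h1 (j + N) (by omega))
  have a2 := abs_le.1 (h1 j (by omega))
  obtain ⟨L, hLd⟩ : ∃ L, L = Real.log (N : ℝ) := ⟨_, rfl⟩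
  rw [← hLd, pow_one] at a1 a2
  rw [← hLd] at hL ⊢
  have hL0 : 0 < L := by linarith
  have h3 : (N : ℝ) - 2 * (N / L) ≤ Chebyshev.theta ((j + N : ℕ) : ℝ) - Chebyshev.theta (j : ℝ) := by
    have := a1.1
    have := a2.2
    push_cast at *
    linarith
  have h4 : Chebyshev.theta ((j + N : ℕ) : ℝ) - Chebyshev.theta (j : ℝ) =
      ∑ b ∈ (Icc 1 N).filter (fun b => (b + j).Prime), Real.log ((b + j : ℕ) : ℝ) := by
    unfold Chebyshev.theta
    rw [Nat.floor_natCast, Nat.floor_natCast, sub_eq_iff_eq_add, ← sum_image (f := fun p : ℕ => Real.log (p : ℝ))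
      (g := fun b => b + j) (by intro a _ b _ hab; simpa using hab), ← sum_union]
    · apply sum_congr _ fun _ _ => rfl
      ext p
      simp only [mem_filter, mem_Ioc, mem_union, mem_image, mem_Icc]
      constructor
      · rintro ⟨⟨h5, h6⟩, h7⟩
        rcases le_or_gt p j with h8 | h8
        · right
          exact ⟨⟨h5, h8⟩, h7⟩
        · left
          refine ⟨p - j, ⟨by omega, ?_⟩, by omega⟩
          rwa [Nat.sub_add_cancel h8.le]
      · rintro (⟨b, ⟨h5, h6⟩, rfl⟩ | ⟨⟨h5, h6⟩, h7⟩)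
        · exact ⟨⟨by omega, by omega⟩, h6⟩
        · exact ⟨⟨h5, by omega⟩, h7⟩
    · rw [disjoint_left]
      intro p hp hp2
      simp only [mem_filter, mem_Ioc, mem_image, mem_Icc] at hp hp2
      obtain ⟨b, ⟨h5, -⟩, rfl⟩ := hp
      omega
  have h5 : ∑ b ∈ (Icc 1 N).filter (fun b => (b + j).Prime), Real.log ((b + j : ℕ) : ℝ) ≤
      (((Icc 1 N).filter (fun b => (b + j).Prime)).card : ℝ) * (3 / 2 * L) := by
    rw [← nsmul_eq_mul, ← sum_const]
    apply sum_le_sum
    intro b hb
    rw [mem_filter, mem_Icc] at hb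
    have h6 : ((b + j : ℕ) : ℝ) ≤ 3 * N := by exact_mod_cast (by omega : b + j ≤ 3 * N)
    have h7 : (0 : ℝ) < ((b + j : ℕ) : ℝ) := by exact_mod_cast hb.2.pos
    refine (Real.log_le_log h7 h6).trans ?_
    rw [Real.log_mul (by norm_num) hN0.ne', ← hLd]
    have : Real.log 3 ≤ 2 := by
      have := Real.log_le_sub_one_of_pos (show (0 : ℝ) < 3 by norm_num)
      linarith
    linarith
  rw [h4] at h3
  rw [div_le_iff₀ (by positivity)]
  have h6 : N / L ≤ N / 16 := div_le_div_of_nonneg_left hN0.le (by norm_num) hL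
  have h7 := h3.trans h5
  have h8 : (0 : ℝ) ≤ (((Icc 1 N).filter (fun b => (b + j).Prime)).card : ℝ) := Nat.cast_nonneg _
  have h9 : (0 : ℝ) ≤ (((Icc 1 N).filter (fun b => (b + j).Prime)).card : ℝ) * L := by positivity
  nlinarith

/-- the first moment, lower bound -/
lemma first_lower : ∀ᶠ N : ℕ in atTop, ∀ n y : ℕ, n ≤ N → y ≤ N →
    (y : ℝ) * (N / (2 * Real.log N)) ≤ ∑ b ∈ Icc 1 N, (pn (n + b) y : ℝ) := by
  filter_upwards [prime_lower] with N h1 n y hn hy
  have e : ∑ b ∈ Icc 1 N, (pn (n + b) y : ℝ) =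
      ∑ h ∈ Ioc 0 y, (((Icc 1 N).filter (fun b => (b + (n + h)).Prime)).card : ℝ) := by
    simp_rw [pn_eq]
    rw [sum_comm]
    apply sum_congr rfl
    intro h _
    rw [← sum_filter, sum_const, nsmul_eq_mul, mul_one]
    congr 3
    ext b
    rw [show n + b + h = b + (n + h) by ring]
  rw [e]
  calc (y : ℝ) * (N / (2 * Real.log N)) = ∑ _h ∈ Ioc 0 y, N / (2 * Real.log N) := by
        rw [sum_const, Nat.card_Ioc, nsmul_eq_mul, Nat.sub_zero]
    _ ≤ _ := by
        apply sum_le_sum
        intro h hh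
        rw [mem_Ioc] at hh
        exact h1 (n + h) (by omega)

/-- the first moment, upper bound -/
lemma first_upper : ∃ C : ℝ, 1 ≤ C ∧ ∀ᶠ N : ℕ in atTop, ∀ n y : ℕ,
    ∑ b ∈ Icc 1 N, (pn (n + b) y : ℝ) ≤ C * N * (y / Real.log N) := by
  obtain ⟨C, hC, N₀, h⟩ := single_window
  refine ⟨max C 1, le_max_right _ _, ?_⟩
  filter_upwards [eventually_ge_atTop N₀, ev_L 1] with N hN hL n y
  have e : ∑ b ∈ Icc 1 N, (pn (n + b) y : ℝ) =
      ∑ h ∈ Ioc 0 y, (((Icc 1 N).filter (fun b => (b + (n + h)).Prime)).card : ℝ) := by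
    simp_rw [pn_eq]
    rw [sum_comm]
    apply sum_congr rfl
    intro h _
    rw [← sum_filter, sum_const, nsmul_eq_mul, mul_one]
    congr 3
    ext b
    rw [show n + b + h = b + (n + h) by ring]
  rw [e]
  calc ∑ h ∈ Ioc 0 y, (((Icc 1 N).filter (fun b => (b + (n + h)).Prime)).card : ℝ) ≤
        ∑ _h ∈ Ioc 0 y, C * N / Real.log N := sum_le_sum fun h' _ => h N hN (n + h')
    _ = y * (C * N / Real.log N) := by rw [sum_const, Nat.card_Ioc, nsmul_eq_mul, Nat.sub_zero]
    _ = C * (N * (y / Real.log N)) := by ring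
    _ ≤ max C 1 * (N * (y / Real.log N)) := by
        apply mul_le_mul_of_nonneg_right (le_max_left _ _)
        positivity
    _ = _ := by ring

/-- the second moment -/
lemma second : ∃ C : ℝ, 1 ≤ C ∧ ∀ᶠ N : ℕ in atTop, ∀ n y : ℕ,
    ∑ b ∈ Icc 1 N, (pn (n + b) y : ℝ) ^ 2 ≤ C * N * (y / Real.log N + (y / Real.log N) ^ 2) := by
  obtain ⟨C1, hC1, N₁, h1⟩ := single_window
  obtain ⟨C2, hC2, A, N₂, h2⟩ := pair_window
  obtain ⟨C3, hC3, h3⟩ := Pool.Agent.H646.MomentM.rat_moment A
  refine ⟨C1 + C2 * C3 + 1, by nlinarith [mul_pos hC2 hC3], ?_⟩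
  filter_upwards [eventually_ge_atTop N₁, eventually_ge_atTop N₂, ev_L 1] with N hN1 hN2 hL n y
  have hL0 : 0 < Real.log N := by linarith
  have key : ∀ y : ℕ, ∑ b ∈ Icc 1 N, (pn (n + b) y : ℝ) ^ 2 ≤ C1 * N * (y / Real.log N) +
      C2 * C3 * N * (y / Real.log N) ^ 2 := by
    intro y
    induction y with
    | zero =>
      have : ∀ b ∈ Icc 1 N, (pn (n + b) 0 : ℝ) ^ 2 = 0 := by
        intro b _
        have : pn (n + b) 0 = 0 := by
          have := pn_le (n + b) 0
          omega
        rw [this]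
        simp
      rw [sum_congr rfl this, sum_const_zero]
      simp
    | succ y ih =>
      have e1 : ∀ b : ℕ, (pn (n + b) (y + 1) : ℝ) ^ 2 = (pn (n + b) y : ℝ) ^ 2 +
          ((if (b + (n + (y + 1))).Prime then (1 : ℝ) else 0) +
          2 * ∑ h ∈ Ioc 0 y, if (b + (n + h)).Prime ∧ (b + (n + (y + 1))).Prime then (1 : ℝ) else 0) := by
        intro b
        have e2 : (pn (n + b) (y + 1) : ℝ) = pn (n + b) y + if (b + (n + (y + 1))).Prime then (1 : ℝ) else 0 := by
          rw [pn_eq, pn_eq, sum_Ioc_succ_top (Nat.zero_le _)]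
          congr 2
          rw [show n + b + (y + 1) = b + (n + (y + 1)) by ring]
        have e3 : ∑ h ∈ Ioc 0 y, (if (b + (n + h)).Prime ∧ (b + (n + (y + 1))).Prime then (1 : ℝ) else 0) =
            pn (n + b) y * if (b + (n + (y + 1))).Prime then (1 : ℝ) else 0 := by
          rw [pn_eq, sum_mul]
          apply sum_congr rfl
          intro h _
          rw [show n + b + h = b + (n + h) by ring]
          by_cases g1 : (b + (n + h)).Prime <;> by_cases g2 : (b + (n + (y + 1))).Prime <;> simp [g1, g2]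
        rw [e3, e2]
        split_ifs <;> ring
      have e4 : ∑ b ∈ Icc 1 N, (pn (n + b) (y + 1) : ℝ) ^ 2 = ∑ b ∈ Icc 1 N, (pn (n + b) y : ℝ) ^ 2 +
          ((((Icc 1 N).filter (fun b => (b + (n + (y + 1))).Prime)).card : ℝ) +
          2 * ∑ h ∈ Ioc 0 y, (((Icc 1 N).filter (fun b => (b + (n + h)).Prime ∧ (b + (n + (y + 1))).Prime)).card : ℝ)) := by
        rw [sum_congr rfl fun b _ => e1 b, sum_add_distrib, sum_add_distrib, ← mul_sum, sum_comm (s := Icc 1 N)]
        congr 2
        · rw [← sum_filter, sum_const, nsmul_eq_mul, mul_one]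
        · congr 1
          apply sum_congr rfl
          intro h _
          rw [← sum_filter, sum_const, nsmul_eq_mul, mul_one]
      have e5 : ∑ h ∈ Ioc 0 y, (((Icc 1 N).filter (fun b => (b + (n + h)).Prime ∧
          (b + (n + (y + 1))).Prime)).card : ℝ) ≤ C2 * N / (Real.log N) ^ 2 * (C3 * y) := by
        calc _ ≤ ∑ h ∈ Ioc 0 y, C2 * N / (Real.log N) ^ 2 * rat (y + 1 - h) ^ A := by
              apply sum_le_sum
              intro h hh
              rw [mem_Ioc] at hh
              have h4 := h2 N hN2 (n + (y + 1)) (n + h) (by omega)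
              rwa [show n + (y + 1) - (n + h) = y + 1 - h by omega] at h4
          _ = C2 * N / (Real.log N) ^ 2 * ∑ h ∈ Icc 1 y, rat h ^ A := by
              rw [← mul_sum]
              congr 1
              apply sum_bij' (fun h _ => y + 1 - h) (fun h _ => y + 1 - h)
              · intro h hh
                rw [mem_Ioc] at hh
                rw [mem_Icc]
                omega
              · intro h hh
                rw [mem_Icc] at hh
                rw [mem_Ioc]
                omega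
              · intro h hh
                rw [mem_Ioc] at hh
                omega
              · intro h hh
                rw [mem_Icc] at hh
                omega
              · intro h hh
                rfl
          _ ≤ _ := mul_le_mul_of_nonneg_left (h3 y) (by positivity)
      have e6 := h1 N hN1 (n + (y + 1))
      rw [e4]
      push_cast
      calc _ ≤ (C1 * N * (y / Real.log N) + C2 * C3 * N * (y / Real.log N) ^ 2) +
            (C1 * N / Real.log N + 2 * (C2 * N / (Real.log N) ^ 2 * (C3 * y))) := by linarith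
        _ = C1 * N * ((y + 1) / Real.log N) + C2 * C3 * N * ((y / Real.log N) ^ 2 + 2 * y / (Real.log N) ^ 2) := by
            ring
        _ ≤ C1 * N * ((y + 1) / Real.log N) + C2 * C3 * N * ((y + 1) / Real.log N) ^ 2 := by
            have : (y / Real.log N) ^ 2 + 2 * y / (Real.log N) ^ 2 ≤ ((y + 1) / Real.log N) ^ 2 := by
              rw [div_pow, div_pow, ← add_div]
              apply div_le_div_of_nonneg_right _ (by positivity)
              nlinarith
            have h5 : 0 ≤ C2 * C3 * (N : ℝ) := by positivity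
            have := mul_le_mul_of_nonneg_left this h5
            linarith
  refine (key y).trans ?_
  have h5 : 0 ≤ (N : ℝ) * (y / Real.log N) := by positivity
  have h6 : 0 ≤ (N : ℝ) * (y / Real.log N) ^ 2 := by positivity
  have h7 : 0 < C2 * C3 := mul_pos hC2 hC3
  nlinarith

/-- there is a prime in `(m, m + y]` -/
def HT (y m : ℕ) : Prop := 0 < pn m y

instance (y m : ℕ) : Decidable (HT y m) := by unfold HT; infer_instance

/-- many intervals with primes -/
lemma hit_lower : ∃ c : ℝ, 0 < c ∧ ∀ᶠ N : ℕ in atTop, ∀ n y : ℕ, n ≤ N → y ≤ N →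
    c * N * min 1 (y / Real.log N) ≤ (((Icc 1 N).filter (fun b => HT y (n + b))).card : ℝ) := by
  obtain ⟨C, hC, h2⟩ := second
  refine ⟨1 / (8 * C), by positivity, ?_⟩
  filter_upwards [first_lower, h2, ev_L 1, eventually_ge_atTop 1] with N h1 h2 hL hN1 n y hn hy
  have hN0 : (0 : ℝ) < N := by exact_mod_cast hN1
  have hL0 : 0 < Real.log N := by linarith
  obtain ⟨u, hu⟩ : ∃ u : ℝ, u = y / Real.log N := ⟨_, rfl⟩
  have hu0 : 0 ≤ u := by rw [hu]; positivity
  obtain ⟨F, hF⟩ : ∃ F : Finset ℕ, F = (Icc 1 N).filter (fun b => HT y (n + b)) := ⟨_, rfl⟩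
  rw [← hF, ← hu]
  have e1 : ∑ b ∈ Icc 1 N, (pn (n + b) y : ℝ) = ∑ b ∈ F, (pn (n + b) y : ℝ) := by
    rw [hF]
    symm
    apply sum_subset (filter_subset _ _)
    intro b hb hb2
    rw [mem_filter, not_and] at hb2
    have := hb2 hb
    unfold HT at this
    have : pn (n + b) y = 0 := by omega
    rw [this, Nat.cast_zero]
  have e2 : (∑ b ∈ F, (pn (n + b) y : ℝ)) ^ 2 ≤ F.card * ∑ b ∈ F, (pn (n + b) y : ℝ) ^ 2 :=
    sq_sum_le_card_mul_sum_sq
  have e3 : ∑ b ∈ F, (pn (n + b) y : ℝ) ^ 2 ≤ C * N * (u + u ^ 2) := by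
    rw [hu]
    refine le_trans ?_ (h2 n y)
    apply sum_le_sum_of_subset_of_nonneg
    · rw [hF]; exact filter_subset _ _
    · intro _ _ _; positivity
  have e4 := h1 n y hn hy
  rw [e1] at e4
  have e5 : (y : ℝ) * (N / (2 * Real.log N)) = u * N / 2 := by
    rw [hu]
    field_simp
  rw [e5] at e4
  rcases hu0.eq_or_lt with h0 | h0
  · rw [← h0]
    have : min (1 : ℝ) 0 = 0 := min_eq_right (by norm_num)
    rw [this, mul_zero]
    exact Nat.cast_nonneg _
  have e6 : (u * N / 2) ^ 2 ≤ F.card * (C * N * (u + u ^ 2)) := by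
    calc (u * N / 2) ^ 2 ≤ (∑ b ∈ F, (pn (n + b) y : ℝ)) ^ 2 := pow_le_pow_left₀ (by positivity) e4 2
      _ ≤ _ := e2.trans (mul_le_mul_of_nonneg_left e3 (Nat.cast_nonneg _))
  have e7 : u * N ≤ 4 * C * (1 + u) * F.card := by
    have h3 : 0 < u * N := by positivity
    by_contra hcon
    rw [not_le] at hcon
    have := mul_lt_mul_of_pos_left hcon h3
    nlinarith
  have e8 : (1 + u) * min 1 u ≤ 2 * u := by
    rcases le_total u 1 with h4 | h4
    · rw [min_eq_right h4]
      nlinarith
    · rw [min_eq_left h4]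
      linarith
  have hF0 : (0 : ℝ) ≤ F.card := Nat.cast_nonneg _
  have h1u : 0 < 1 + u := by linarith
  have hm : min 1 u ≤ 2 * u / (1 + u) := by
    rw [le_div_iff₀ h1u]
    linarith
  calc 1 / (8 * C) * N * min 1 u ≤ 1 / (8 * C) * N * (2 * u / (1 + u)) :=
        mul_le_mul_of_nonneg_left hm (by positivity)
    _ = (u * N) / (4 * C * (1 + u)) := by
        field_simp
        ring
    _ ≤ F.card := by
        rw [div_le_iff₀ (by positivity)]
        linarith

end Pool.Agent.NH15.UT
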