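import Pool.Agent.NH15.UT.U1

set_option autoImplicit false

/-! Tuples of shifts: the exponential moment of the number of hits, and the number of the points which survive. -/

namespace Pool.Agent.NH15.UT

open Finset Filter
open Pool.Agent.W301.SS (pn pn_mono pn_le pn_eq ev_L ev_log)

open Classical in
/-- the `k`-tuples of numbers in `[1, N]` with the property `E` -/
noncomputable def tup (N k : ℕ) (E : (Fin k → ℕ) → Prop) : Finset (Fin k → ℕ) :=
  (Fintype.piFinset fun _ : Fin k => Icc 1 N).filter E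

lemma mem_tup {N k : ℕ} {E : (Fin k → ℕ) → Prop} {b : Fin k → ℕ} :
    b ∈ tup N k E ↔ (∀ i, b i ∈ Icc 1 N) ∧ E b := by
  classical
  unfold tup
  rw [mem_filter, Fintype.mem_piFinset]

/-- the number of the `k`-tuples of numbers in `[1, N]` with the property `E` -/
noncomputable def numT (N k : ℕ) (E : (Fin k → ℕ) → Prop) : ℝ := ((tup N k E).card : ℝ)

lemma numT_nonneg (N k : ℕ) (E : (Fin k → ℕ) → Prop) : 0 ≤ numT N k E := Nat.cast_nonneg _

lemma numT_mono (N k : ℕ) {E F : (Fin k → ℕ) → Prop} (h : ∀ b, E b → F b) : numT N k E ≤ numT N k F := by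
  unfold numT
  apply Nat.cast_le.2
  apply card_le_card
  intro b hb
  rw [mem_tup] at hb ⊢
  exact ⟨hb.1, h b hb.2⟩

lemma numT_le (N k : ℕ) (E : (Fin k → ℕ) → Prop) : numT N k E ≤ (N : ℝ) ^ k := by
  unfold numT
  calc ((tup N k E).card : ℝ) ≤
        ((Fintype.piFinset fun _ : Fin k => Icc 1 N).card : ℝ) := by
        apply Nat.cast_le.2
        apply card_le_card
        intro b hb
        exact Fintype.mem_piFinset.2 (mem_tup.1 hb).1
    _ = _ := by
        rw [Fintype.card_piFinset]
        simp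

lemma numT_or (N k : ℕ) (E F : (Fin k → ℕ) → Prop) : numT N k (fun b => E b ∨ F b) ≤ numT N k E + numT N k F := by
  classical
  unfold numT
  rw [← Nat.cast_add]
  apply Nat.cast_le.2
  refine (card_le_card ?_).trans (card_union_le _ _)
  intro b hb
  rw [mem_tup] at hb
  rw [mem_union, mem_tup, mem_tup]
  tauto

lemma numT_zero (N k : ℕ) (E : (Fin k → ℕ) → Prop) (h : ∀ b, ¬ E b) : numT N k E = 0 := by
  unfold numT
  have : tup N k E = ∅ := by
    rw [eq_empty_iff_forall_notMem]
    intro b hb
    exact h b (mem_tup.1 hb).2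
  rw [this, card_empty, Nat.cast_zero]

lemma numT_ex {ι : Type*} (s : Finset ι) (N k : ℕ) (E : ι → (Fin k → ℕ) → Prop) :
    numT N k (fun b => ∃ i ∈ s, E i b) ≤ ∑ i ∈ s, numT N k (E i) := by
  classical
  induction s using Finset.induction_on with
  | empty =>
    rw [sum_empty, numT_zero]
    rintro b ⟨i, hi, -⟩
    simp at hi
  | insert a s ha ih =>
    rw [sum_insert ha]
    refine (numT_mono N k (F := fun b => E a b ∨ ∃ i ∈ s, E i b) ?_).trans ((numT_or N k _ _).trans ?_)
    · rintro b ⟨i, hi, h⟩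
      rw [mem_insert] at hi
      rcases hi with rfl | hi
      · exact Or.inl h
      · exact Or.inr ⟨i, hi, h⟩
    · linarith

lemma numT_succ (N k : ℕ) (E : (Fin (k + 1) → ℕ) → Prop) :
    numT N (k + 1) E = ∑ b0 ∈ Icc 1 N, numT N k (fun b => E (Fin.cons b0 b)) := by
  classical
  unfold numT
  rw [card_eq_sum_card_fiberwise (f := fun b : Fin (k + 1) → ℕ => b 0) (t := Icc 1 N)]
  · push_cast
    apply sum_congr rfl
    intro b0 hb0
    congr 1
    refine card_bij' (fun b _ => Fin.tail b) (fun b _ => (Fin.cons b0 b : Fin (k + 1) → ℕ)) ?_ ?_ ?_ ?_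
    · intro b hb
      rw [mem_filter, mem_tup] at hb
      rw [mem_tup]
      obtain ⟨⟨h1, h2⟩, h3⟩ := hb
      refine ⟨fun i => h1 i.succ, ?_⟩
      rw [← h3, Fin.cons_self_tail]
      exact h2
    · intro b hb
      rw [mem_tup] at hb
      rw [mem_filter, mem_tup]
      refine ⟨⟨?_, hb.2⟩, rfl⟩
      intro i
      refine Fin.cases ?_ (fun j => ?_) i
      · exact hb0
      · exact hb.1 j
    · intro b hb
      rw [mem_filter] at hb
      show (Fin.cons b0 (Fin.tail b) : Fin (k + 1) → ℕ) = b
      rw [← hb.2, Fin.cons_self_tail]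
    · intro b _
      exact Fin.tail_cons _ _
  · intro b hb
    rw [mem_coe, mem_tup] at hb
    exact hb.1 0

/-- the number of the shifts with a prime in the interval -/
def hits {k : ℕ} (b : Fin k → ℕ) (y n : ℕ) : ℕ := ((univ : Finset (Fin k)).filter (fun i => HT y (n + b i))).card

lemma hits_mono {k : ℕ} (b : Fin k → ℕ) {y z : ℕ} (n : ℕ) (h : y ≤ z) : hits b y n ≤ hits b z n := by
  unfold hits
  apply card_le_card
  intro i hi
  rw [mem_filter] at hi ⊢
  refine ⟨hi.1, ?_⟩
  have := hi.2
  unfold HT at this ⊢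
  exact lt_of_lt_of_le this (pn_mono h)

lemma few_hits (N k n y : ℕ) (p : ℝ) (hp0 : 0 ≤ p)
    (hp : p * N ≤ (((Icc 1 N).filter (fun b => HT y (n + b))).card : ℝ)) :
    numT N k (fun b => (hits b y n : ℝ) ≤ k * p / 4) ≤ (N : ℝ) ^ k * Real.exp (-(k * p / 4)) := by
  classical
  have hN : (0 : ℝ) ≤ N := Nat.cast_nonneg N
  -- one factor
  have h1 : ∑ b ∈ Icc 1 N, Real.exp (-(if HT y (n + b) then (1 : ℝ) else 0)) ≤ N * Real.exp (-(p / 2)) := by
    have e1 : ∀ b ∈ Icc 1 N, Real.exp (-(if HT y (n + b) then (1 : ℝ) else 0)) ≤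
        1 - (1 / 2 + 1 / 8) * (if HT y (n + b) then (1 : ℝ) else 0) := by
      intro b _
      split_ifs
      · have h2 : Real.exp (-1) ≤ 3 / 8 := by
          rw [Real.exp_neg, inv_le_comm₀ (Real.exp_pos _) (by norm_num)]
          have := Real.exp_one_gt_d9
          norm_num
          linarith
        linarith
      · simp
    refine (sum_le_sum e1).trans ?_
    rw [sum_sub_distrib, ← mul_sum, ← sum_filter, sum_const, sum_const, nsmul_eq_mul, nsmul_eq_mul, mul_one, mul_one,
      Nat.card_Icc, Nat.add_sub_cancel]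
    have h2 : 1 - p / 2 - p / 8 ≤ Real.exp (-(p / 2)) := by
      have := Real.add_one_le_exp (-(p / 2))
      linarith
    have h3 := mul_le_mul_of_nonneg_left h2 hN
    nlinarith
  have h2 : ∑ b ∈ (Fintype.piFinset fun _ : Fin k => Icc 1 N), Real.exp (-(hits b y n : ℝ)) ≤
      (N : ℝ) ^ k * Real.exp (-(k * p / 2)) := by
    have e1 : ∀ b : Fin k → ℕ, Real.exp (-(hits b y n : ℝ)) =
        ∏ i : Fin k, Real.exp (-(if HT y (n + b i) then (1 : ℝ) else 0)) := by
      intro b
      rw [← Real.exp_sum, sum_neg_distrib]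
      congr 2
      unfold hits
      rw [← sum_filter, sum_const, nsmul_eq_mul, mul_one]
    rw [sum_congr rfl fun b _ => e1 b, ← prod_univ_sum (t := fun _ : Fin k => Icc 1 N)
      (f := fun _ b => Real.exp (-(if HT y (n + b) then (1 : ℝ) else 0))), prod_const, card_univ, Fintype.card_fin]
    calc _ ≤ (N * Real.exp (-(p / 2))) ^ k := by
          apply pow_le_pow_left₀ _ h1
          exact sum_nonneg fun _ _ => (Real.exp_pos _).le
      _ = _ := by
          rw [mul_pow, ← Real.exp_nat_mul]
          congr 2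
          ring
  have h3 : numT N k (fun b => (hits b y n : ℝ) ≤ k * p / 4) * Real.exp (-(k * p / 4)) ≤
      ∑ b ∈ (Fintype.piFinset fun _ : Fin k => Icc 1 N), Real.exp (-(hits b y n : ℝ)) := by
    unfold numT
    rw [← nsmul_eq_mul, ← sum_const]
    calc _ ≤ ∑ b ∈ tup N k (fun b => (hits b y n : ℝ) ≤ k * p / 4),
          Real.exp (-(hits b y n : ℝ)) := by
          apply sum_le_sum
          intro b hb
          apply Real.exp_le_exp.2
          have := (mem_tup.1 hb).2
          linarith
      _ ≤ _ := by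
          apply sum_le_sum_of_subset_of_nonneg
          · intro b hb
            exact Fintype.mem_piFinset.2 (mem_tup.1 hb).1
          · intro _ _ _
            exact (Real.exp_pos _).le
  have h4 := h3.trans h2
  have h5 : Real.exp (-(k * p / 2)) = Real.exp (-(k * p / 4)) * Real.exp (-(k * p / 4)) := by
    rw [← Real.exp_add]
    congr 1
    ring
  rw [h5, ← mul_assoc] at h4
  exact le_of_mul_le_mul_right h4 (Real.exp_pos _)

/-- the points which survive -/
def surv {k : ℕ} (y : ℕ) (S : Finset ℕ) (b : Fin k → ℕ) : Finset ℕ := S.filter (fun n => ∀ i, ¬ HT y (n + b i))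

lemma surv_cons {k : ℕ} (y : ℕ) (S : Finset ℕ) (b0 : ℕ) (b : Fin k → ℕ) :
    surv y S (Fin.cons b0 b : Fin (k + 1) → ℕ) = surv y (S.filter (fun n => ¬ HT y (n + b0))) b := by
  unfold surv
  rw [filter_filter]
  apply filter_congr
  intro n _
  rw [Fin.forall_fin_succ]
  simp

lemma chainS (N y : ℕ) (θ ε β : ℝ) (hθ : 0 < θ) (hε : 0 ≤ ε) (hβ : 0 ≤ β)
    (hbad : ∀ S : Finset ℕ, S ⊆ Icc 1 N → θ ≤ S.card →
      (((Icc 1 N).filter (fun b => S.card < 2 * (S.filter (fun n => HT y (n + b))).card)).card : ℝ) ≤ β * N)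
    (hmean : ∀ S : Finset ℕ, S ⊆ Icc 1 N →
      ∑ b ∈ Icc 1 N, ((S.filter (fun n => HT y (n + b))).card : ℝ) ≤ ε / 2 * N * S.card) (k : ℕ) :
    ∀ S : Finset ℕ, S ⊆ Icc 1 N → S.Nonempty →
      numT N k (fun b => ((surv y S b).card : ℝ) < θ) ≤ (N : ℝ) ^ k * (θ / S.card * (1 + ε) ^ k + k * β) := by
  classical
  induction k with
  | zero =>
    intro S hS hSn
    have hS0 : (0 : ℝ) < S.card := by exact_mod_cast card_pos.2 hSn
    by_cases h : (S.card : ℝ) < θ
    · refine (numT_le N 0 _).trans ?_
      rw [pow_zero, pow_zero, mul_one, one_mul]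
      have : 1 ≤ θ / S.card := by
        rw [le_div_iff₀ hS0]
        linarith
      simp only [Nat.cast_zero, zero_mul, add_zero]
      exact this
    · have : numT N 0 (fun b => ((surv y S b).card : ℝ) < θ) = 0 := by
        apply numT_zero
        intro b h2
        apply h
        have : surv y S b = S := by
          unfold surv
          rw [filter_eq_self]
          intro n _ i
          exact i.elim0
        rwa [this] at h2
      rw [this]
      positivity
  | succ k ih =>
    intro S hS hSn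
    have hS0 : (0 : ℝ) < S.card := by exact_mod_cast card_pos.2 hSn
    have hN0 : (0 : ℝ) ≤ N := Nat.cast_nonneg N
    by_cases hlt : (S.card : ℝ) < θ
    · refine (numT_le N (k + 1) _).trans ?_
      have h1 : 1 ≤ θ / S.card := by
        rw [le_div_iff₀ hS0]
        linarith
      have h2 : 1 ≤ (1 + ε) ^ (k + 1) := one_le_pow₀ (by linarith)
      have h3 : 1 ≤ θ / S.card * (1 + ε) ^ (k + 1) + ((k + 1 : ℕ) : ℝ) * β := by
        have : 0 ≤ ((k + 1 : ℕ) : ℝ) * β := by positivity
        nlinarith
      calc (N : ℝ) ^ (k + 1) = (N : ℝ) ^ (k + 1) * 1 := (mul_one _).symm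
        _ ≤ _ := mul_le_mul_of_nonneg_left h3 (by positivity)
    rw [not_lt] at hlt
    rw [numT_succ]
    simp only [surv_cons]
    obtain ⟨Bad, hBad⟩ : ∃ Bad : Finset ℕ, Bad = (Icc 1 N).filter (fun b => S.card < 2 * (S.filter (fun n => HT y (n + b))).card) :=
      ⟨_, rfl⟩
    have hb := hbad S hS hlt
    rw [← hBad] at hb
    have hterm : ∀ b0 ∈ Icc 1 N, numT N k (fun b => ((surv y (S.filter (fun n => ¬ HT y (n + b0))) b).card : ℝ) < θ) ≤
        (if b0 ∈ Bad then (N : ℝ) ^ k else 0) +
        (N : ℝ) ^ k * (θ / S.card * (1 + ε) ^ k * (1 + 2 * ((S.filter (fun n => HT y (n + b0))).card / S.card)) + k * β) := by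
      intro b0 hb0
      have hrest : 0 ≤ (N : ℝ) ^ k * (θ / S.card * (1 + ε) ^ k *
          (1 + 2 * ((S.filter (fun n => HT y (n + b0))).card / S.card)) + k * β) := by positivity
      by_cases h : b0 ∈ Bad
      · rw [if_pos h]
        linarith [numT_le N k (fun b => ((surv y (S.filter (fun n => ¬ HT y (n + b0))) b).card : ℝ) < θ)]
      · rw [if_neg h, zero_add]
        rw [hBad, mem_filter, not_and, not_lt] at h
        have h1 := h hb0
        obtain ⟨κ, hκ⟩ : ∃ κ : ℝ, κ = (S.filter (fun n => HT y (n + b0))).card / S.card := ⟨_, rfl⟩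
        have hκ0 : 0 ≤ κ := by rw [hκ]; positivity
        have hκ1 : κ ≤ 1 / 2 := by
          rw [hκ, div_le_iff₀ hS0]
          have : (2 : ℝ) * (S.filter (fun n => HT y (n + b0))).card ≤ S.card := by exact_mod_cast h1
          linarith
        have hS' : ((S.filter (fun n => ¬ HT y (n + b0))).card : ℝ) = (1 - κ) * S.card := by
          have h2 := card_filter_add_card_filter_not (s := S) (fun n => HT y (n + b0))
          have h3 : ((S.filter (fun n => HT y (n + b0))).card : ℝ) + (S.filter (fun n => ¬ HT y (n + b0))).card = S.card := by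
            exact_mod_cast h2
          have h4 : ((S.filter (fun n => HT y (n + b0))).card : ℝ) = κ * S.card := by
            rw [hκ]
            field_simp
          linarith
        have hpos : 0 < (1 - κ) * S.card := mul_pos (by linarith) hS0
        have hne : (S.filter (fun n => ¬ HT y (n + b0))).Nonempty := by
          rw [← card_pos]
          have : (0 : ℝ) < ((S.filter (fun n => ¬ HT y (n + b0))).card : ℝ) := by rw [hS']; exact hpos
          exact_mod_cast this
        refine (ih (S.filter (fun n => ¬ HT y (n + b0))) ((filter_subset _ _).trans hS) hne).trans ?_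
        apply mul_le_mul_of_nonneg_left _ (by positivity)
        apply add_le_add _ le_rfl
        rw [hS', ← hκ]
        have h2 : θ / ((1 - κ) * S.card) ≤ θ / S.card * (1 + 2 * κ) := by
          rw [div_le_iff₀ hpos]
          have h3 : 1 ≤ (1 + 2 * κ) * (1 - κ) := by nlinarith
          calc θ = θ * 1 := (mul_one θ).symm
            _ ≤ θ * ((1 + 2 * κ) * (1 - κ)) := mul_le_mul_of_nonneg_left h3 hθ.le
            _ = _ := by field_simp
        calc θ / ((1 - κ) * S.card) * (1 + ε) ^ k ≤ θ / S.card * (1 + 2 * κ) * (1 + ε) ^ k :=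
              mul_le_mul_of_nonneg_right h2 (by positivity)
          _ = _ := by ring
    refine (sum_le_sum hterm).trans ?_
    rw [sum_add_distrib]
    have h1 : ∑ b0 ∈ Icc 1 N, (if b0 ∈ Bad then (N : ℝ) ^ k else 0) ≤ β * N * (N : ℝ) ^ k := by
      rw [← sum_filter, sum_const, nsmul_eq_mul]
      apply mul_le_mul_of_nonneg_right _ (by positivity)
      refine le_trans ?_ hb
      apply Nat.cast_le.2
      apply card_le_card
      intro b hb
      exact (mem_filter.1 hb).2
    have h2 : ∑ b0 ∈ Icc 1 N, (N : ℝ) ^ k * (θ / S.card * (1 + ε) ^ k *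
        (1 + 2 * ((S.filter (fun n => HT y (n + b0))).card / S.card)) + k * β) ≤
        (N : ℝ) ^ k * (θ / S.card * (1 + ε) ^ k * (N * (1 + ε)) + N * (k * β)) := by
      rw [← mul_sum, sum_add_distrib, ← mul_sum, sum_const, nsmul_eq_mul, Nat.card_Icc, Nat.add_sub_cancel]
      apply mul_le_mul_of_nonneg_left _ (by positivity)
      apply add_le_add _ le_rfl
      apply mul_le_mul_of_nonneg_left _ (by positivity)
      rw [sum_add_distrib, ← mul_sum, ← sum_div, sum_const, nsmul_eq_mul, Nat.card_Icc, Nat.add_sub_cancel, mul_one]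
      have h3 : (∑ b0 ∈ Icc 1 N, ((S.filter (fun n => HT y (n + b0))).card : ℝ)) / S.card ≤ ε / 2 * N := by
        rw [div_le_iff₀ hS0]
        exact hmean S hS
      linarith
    have h3 := add_le_add h1 h2
    refine h3.trans (le_of_eq ?_)
    push_cast
    ring

end Pool.Agent.NH15.UT
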